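import Pool.Agent.helper94.VD.SpecDPR

/-!
# Row vd:DDK (MP_07c750_an, project VD): the derivative of the chart
-/

set_option autoImplicit false

open scoped ContDiff Topology InnerProductSpace ENNReal
open MeasureTheory Filter Set

namespace Pool.Agent.VD

noncomputable section

theorem DDK_ChT0 {d : ℕ} (G : V d → V d →L[ℝ] V d)
    (ws : ∀ x ξ u u' : V d, ⟪ChT G x u ξ, u'⟫_ℝ = ⟪ChT G x u' ξ, u⟫_ℝ) (x ξ : V d) : ChT G x 0 ξ = 0 := by
  have h := ws x ξ 0 (ChT G x 0 ξ)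
  rw [inner_zero_right] at h
  exact inner_self_eq_zero.1 h

theorem DDK_Wc0 {d : ℕ} (G : V d → V d →L[ℝ] V d)
    (ws : ∀ x ξ u u' : V d, ⟪ChT G x u ξ, u'⟫_ℝ = ⟪ChT G x u' ξ, u⟫_ℝ) (p : P d) (η : V d) : Wc G p (0, η) = η := by
  unfold Wc
  change η - ChT G p.1 0 p.2 = η
  rw [DDK_ChT0 G ws, sub_zero]

theorem DDK_proof (hSFD : SFD_stmt) (hSFI : SFI_stmt) : DDK_stmt := by
  intro m C C' r Γ _ _ K G Φ D hr hgeo y hy e κ hf hk
  obtain ⟨M, hM, hM'⟩ := hSFI m C hgeo.C1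
  obtain ⟨hlin, -, -, -, -, -, hlow, -⟩ := hM' Γ K G Φ D hgeo y hy e hf
  obtain ⟨-, hd2, hd3, -, hd5, -, -⟩ := hSFD m G y e hgeo.met hy.2 hf
  have hκ : HasFDerivAt κ (fderiv ℝ κ 0) 0 := (hk.c11.dif 0 (by rw [sub_zero, norm_zero]; exact hr.le)).hasFDerivAt
  set κ' : Z m →L[ℝ] P (m + 1) := fderiv ℝ κ 0 with hκ'
  have hnear : ∀ᶠ a : Z m in 𝓝 0, ‖a‖ ≤ r := by
    filter_upwards [Metric.closedBall_mem_nhds (0 : Z m) hr] with a ha
    rwa [mem_closedBall_zero_iff] at ha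
  -- the linear coordinates as a continuous linear map
  let L : P (m + 1) →L[ℝ] Z m := LinearMap.toContinuousLinearMap (hlin.mk' (LL G y e))
  have hL : ∀ v, L v = LL G y e v := fun v => rfl
  have h1 : ∀ v : Z m, LL G y e (κ' v) = v := by
    have hc : HasFDerivAt (fun a : Z m => L (κ a - y)) (L.comp κ') 0 :=
      L.hasFDerivAt.comp (0 : Z m) (hκ.sub_const y)
    have hi : HasFDerivAt (fun a : Z m => L (κ a - y)) (ContinuousLinearMap.id ℝ (Z m)) 0 := by
      refine (hasFDerivAt_id (𝕜 := ℝ) (0 : Z m)).congr_of_eventuallyEq ?_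
      filter_upwards [hnear] with a ha
      rw [hL, (hk.on a ha).2.2]
      rfl
    intro v
    have h := DFunLike.congr_fun (hc.unique hi) v
    exact h
  have h2 : ∀ v : Z m, (κ' v).1 = e v.1 := by
    have hc : HasFDerivAt (fun a : Z m => (κ a).1) ((ContinuousLinearMap.fst ℝ (V (m + 1)) (V (m + 1))).comp κ') 0 :=
      (ContinuousLinearMap.fst ℝ (V (m + 1)) (V (m + 1))).hasFDerivAt.comp (0 : Z m) hκ
    have hi : HasFDerivAt (fun a : Z m => (κ a).1) (e.comp (ContinuousLinearMap.fst ℝ (W m) (W m))) 0 := by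
      have h0 : HasFDerivAt (fun a : Z m => y.1 + e a.1) (e.comp (ContinuousLinearMap.fst ℝ (W m) (W m))) 0 :=
        ((e.comp (ContinuousLinearMap.fst ℝ (W m) (W m))).hasFDerivAt).const_add y.1
      refine h0.congr_of_eventuallyEq ?_
      filter_upwards [hnear] with a ha
      exact (hk.on a ha).2.1
    intro v
    have h := DFunLike.congr_fun (hc.unique hi) v
    exact h
  have h3 : ∀ v : Z m, fderiv ℝ (Ham G) y (κ' v) = 0 := by
    have hH : HasFDerivAt (Ham G) (fderiv ℝ (Ham G) y) (κ 0) := by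
      rw [hk.zero]
      exact ((hgeo.hs.differentiable (by simp)) y).hasFDerivAt
    have hc : HasFDerivAt (fun a : Z m => Ham G (κ a)) ((fderiv ℝ (Ham G) y).comp κ') 0 := hH.comp (0 : Z m) hκ
    have hi : HasFDerivAt (fun a : Z m => Ham G (κ a)) (0 : Z m →L[ℝ] ℝ) 0 := by
      refine (hasFDerivAt_const (1 / 2 : ℝ) (0 : Z m)).congr_of_eventuallyEq ?_
      filter_upwards [hnear] with a ha
      have h := (hk.on a ha).1
      unfold nrm at h
      rw [Real.sqrt_eq_one] at h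
      unfold Ham
      rw [h]
    intro v
    have h := DFunLike.congr_fun (hc.unique hi) v
    exact h
  have hort : ∀ v : Z m, ⟪y.2, (κ' v).1⟫_ℝ = 0 := fun v => by rw [h2 v, hf.ort]
  have hsec : ∀ u : P (m + 1), ⟪y.2, u.1⟫_ℝ = 0 → fderiv ℝ (Ham G) y u = 0 → κ' (LL G y e u) = u := by
    intro u hu1 hu2
    have e1 : LL G y e (κ' (LL G y e u) - u) = 0 := by
      rw [← hL, map_sub, hL, hL, h1, sub_self]
    have e2 : ⟪y.2, (κ' (LL G y e u) - u).1⟫_ℝ = 0 := by
      rw [Prod.fst_sub, inner_sub_right, hort, hu1, sub_zero]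
    have e3 : fderiv ℝ (Ham G) y (κ' (LL G y e u) - u) = 0 := by
      rw [map_sub, h3, hu2, sub_zero]
    have h := hlow (κ' (LL G y e u) - u)
    rw [e1, e2, e3, norm_zero, abs_zero, add_zero, add_zero, mul_zero] at h
    exact sub_eq_zero.1 (norm_le_zero_iff.1 h)
  refine ⟨fun v => ⟨h1 v, hort v, h3 v⟩, hsec, fun w => ?_⟩
  have hW : Wc G y (0, G y.1 (e w)) = G y.1 (e w) := DDK_Wc0 G hgeo.ws y _
  have hz : ⟪G y.1 (e w), vel G y⟫_ℝ = 0 := by
    have h := hd2 (G y.1 (e w))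
    rw [hd3] at h
    have h' : ⟪G y.1 (e w), vel G y⟫_ℝ • y.2 = 0 := by
      have h4 : G y.1 (e w) + 0 = G y.1 (e w) + ⟪G y.1 (e w), vel G y⟫_ℝ • y.2 := by rw [add_zero]; exact h
      exact (add_left_cancel h4).symm
    rcases smul_eq_zero.1 h' with h5 | h5
    · exact h5
    · exfalso
      rw [h5, inner_zero_left] at hd5
      exact one_ne_zero hd5.symm
  have hLu : LL G y e (0, G y.1 (e w)) = (0, w) := by
    unfold LL
    rw [hW]
    change ((ContinuousLinearMap.adjoint e) (G y.1 0), (ContinuousLinearMap.adjoint e) (G y.1 (e w))) = (0, w)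
    rw [map_zero, map_zero, hd3]
  have h := hsec (0, G y.1 (e w)) (by change ⟪y.2, (0 : V (m + 1))⟫_ℝ = 0; exact inner_zero_right _) (by rw [hgeo.dh, hW, hz])
  rw [hLu] at h
  exact h

end

end Pool.Agent.VD
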